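import Pool.Agent.H349.TM.Sq

/-! The obstruction for closed topological 3-manifolds. -/

set_option autoImplicit false

namespace Pool.Agent.H349.TM

open Set Topology
open Pool.Agent.Helper922.HB.Sc (Sing sface altd vert)
open Pool.Agent.Helper158.PD

universe u

variable {X : Type u} [TopologicalSpace X]

/-- evaluation of cochains on a simplex -/
def evs (τ : Sing X 2) : Co X 2 →ₗ[F2] F2 := LinearMap.proj τ

theorem evs_apply (τ : Sing X 2) (u : Co X 2) : evs τ u = u τ := rfl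

/-- the class of a torus -/
theorem exists_torus {d : X} (x t : Path d d) (h : (x.trans t).Homotopic (t.trans x)) :
    ∃ ev : Co X 2 →ₗ[F2] F2, (∀ c : Co X 1, ev (dl 1 c) = 0) ∧
      ∀ a ∈ Cy X 1, ∀ b ∈ Cy X 1, ev (cc a b) =
        a (pathSx x) * b (pathSx t) + a (pathSx t) * b (pathSx x) := by
  obtain ⟨τa, a2, a0, a1⟩ := exists_tri x t
  obtain ⟨τb, b2, b0, b1⟩ := exists_tri t x
  obtain ⟨τ₁, τ₂, h12, h10, h22, h20, he⟩ := exists_sq h
  refine ⟨evs τa + evs τb + evs τ₁ + evs τ₂, fun c => ?_, fun a ha b hb => ?_⟩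
  · simp only [LinearMap.add_apply, evs_apply, dl1_apply, a2, a0, a1, b2, b0, b1, h12, h10, h22,
      h20, he]
    generalize c (pathSx x) = p
    generalize c (pathSx t) = q
    generalize c (pathSx (x.trans t)) = r
    generalize c (pathSx (t.trans x)) = s
    generalize c (pathSx (Path.refl d)) = v
    generalize c (sface 1 1 τ₂) = w
    revert p q r s v w
    decide
  · simp only [LinearMap.add_apply, evs_apply, cc_apply, a2, a0, b2, b0, h12, h10, h22,
      h20, cocycle_refl ha, cocycle_refl hb, mul_zero, zero_mul, add_zero]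

/-- the class of a Klein bottle -/
theorem exists_klein {d : X} (w t : Path d d) (h : ((w.trans t).trans w).Homotopic t) :
    ∃ ev : Co X 2 →ₗ[F2] F2, (∀ c : Co X 1, ev (dl 1 c) = 0) ∧
      ∀ a ∈ Cy X 1, ∀ b ∈ Cy X 1, ev (cc a b) =
        a (pathSx w) * b (pathSx t) + (a (pathSx w) + a (pathSx t)) * b (pathSx w) := by
  obtain ⟨τa, a2, a0, a1⟩ := exists_tri w t
  obtain ⟨τb, b2, b0, b1⟩ := exists_tri (w.trans t) w
  obtain ⟨τ₁, τ₂, h12, h10, h22, h20, he⟩ := exists_sq h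
  refine ⟨evs τa + evs τb + evs τ₁ + evs τ₂, fun c => ?_, fun a ha b hb => ?_⟩
  · simp only [LinearMap.add_apply, evs_apply, dl1_apply, a2, a0, a1, b2, b0, b1, h12, h10, h22,
      h20, he]
    generalize c (pathSx w) = p
    generalize c (pathSx t) = q
    generalize c (pathSx (w.trans t)) = r
    generalize c (pathSx ((w.trans t).trans w)) = s
    generalize c (pathSx (Path.refl d)) = v
    generalize c (sface 1 1 τ₂) = m
    revert p q r s v m
    decide
  · simp only [LinearMap.add_apply, evs_apply, cc_apply, a2, a0, b2, b0, h12, h10, h22,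
      h20, cocycle_refl ha, cocycle_refl hb, cocycle_trans ha, mul_zero, zero_mul, add_zero]

theorem no_closed (X : Type u) [TopologicalSpace X] [CompactSpace X] [T2Space X]
    [ChartedSpace (EuclideanSpace ℝ (Fin 3)) X] (d : X) (x y w t : Path d d)
    (h1 : (x.trans t).Homotopic (t.trans x)) (h2 : (y.trans t).Homotopic (t.trans y))
    (h3 : ((w.trans t).trans w).Homotopic t) (A B C D : Co X 1) (hA : A ∈ Cy X 1)
    (hB : B ∈ Cy X 1) (hC : C ∈ Cy X 1) (hD : D ∈ Cy X 1)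
    (hAx : A (pathSx x) = 1) (hAw : A (pathSx w) = 0) (hAt : A (pathSx t) = 0)
    (hBx : B (pathSx x) = 0) (hBy : B (pathSx y) = 1) (hBt : B (pathSx t) = 0)
    (hCw : C (pathSx w) = 1) (hCt : C (pathSx t) = 0)
    (hDw : D (pathSx w) = 0) (hDt : D (pathSx t) = 1) : False := by
  obtain ⟨I, hI, hdual⟩ := exists_dual (X := X)
  obtain ⟨ev1, hev1, ev1c⟩ := exists_torus x t h1
  obtain ⟨ev2, hev2, ev2c⟩ := exists_torus y t h2
  obtain ⟨ev3, hev3, ev3c⟩ := exists_klein w t h3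
  obtain ⟨c₁, hc1, e1⟩ := hdual ev1 hev1
  obtain ⟨c₂, hc2, e2⟩ := hdual ev2 hev2
  obtain ⟨c₃, hc3, e3⟩ := hdual ev3 hev3
  obtain ⟨S, hS⟩ := LinearMap.exists_extend (SqL I hI)
  have hS' : ∀ u ∈ Cy X 2, S u = I (sq u) := fun u hu => by
    have := congrArg (fun f : Cy X 2 →ₗ[F2] F2 => f ⟨u, hu⟩) hS
    exact this
  obtain ⟨v, hv, ev⟩ := hdual S (fun c => by
    rw [hS' _ (show dl 1 c ∈ Cy X 2 from dl_dl 1 c)]
    exact I_Bd hI (sq_dl c))
  have hcc : ∀ {a b : Co X 1}, a ∈ Cy X 1 → b ∈ Cy X 1 → cc a b ∈ Cy X 2 :=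
    fun ha hb => cup_Cy _ ha hb
  -- symmetry
  have sym : ∀ {φ ψ : Co X 2 →ₗ[F2] F2} {c c' : Co X 1}, c ∈ Cy X 1 → c' ∈ Cy X 1 →
      (∀ u ∈ Cy X 2, φ u = I (c3 c u)) → (∀ u ∈ Cy X 2, ψ u = I (c3 c' u)) →
      ∀ a ∈ Cy X 1, φ (cc a c') = ψ (cc a c) := by
    intro φ ψ c c' hc hc' h h' a ha
    rw [h _ (hcc ha hc'), h' _ (hcc ha hc)]
    exact T3_swap13 hI hc ha hc'
  -- Wu relation
  have wu : ∀ {φ : Co X 2 →ₗ[F2] F2} {c : Co X 1}, c ∈ Cy X 1 →
      (∀ u ∈ Cy X 2, φ u = I (c3 c u)) →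
      ∀ a ∈ Cy X 1, φ (cc a a) + φ (cc a c) + φ (cc a v) = 0 := by
    intro φ c hc h a ha
    have f1 : I (sq (cc a c)) = I (c3 v (cc a c)) := by
      rw [← hS' _ (hcc ha hc)]
      exact ev _ (hcc ha hc)
    rw [sq_cc ha hc, map_add] at f1
    have g1 : φ (cc a a) = I (c3 a (cc a c)) := by
      rw [h _ (hcc ha ha)]
      change T3 I c a a = T3 I a a c
      exact T3_swap13 hI hc ha ha
    have g2 : φ (cc a c) = I (c3 a (cc c c)) := by
      rw [h _ (hcc ha hc)]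
      change T3 I c a c = T3 I a c c
      exact T3_swap12 hI hc ha hc
    have g3 : φ (cc a v) = I (c3 v (cc a c)) := by
      rw [h _ (hcc ha hv)]
      change T3 I c a v = T3 I v a c
      exact T3_swap13 hI hc ha hv
    rw [g1, g2, g3, f1]
    exact CharTwo.add_self_eq_zero _
  have r1 := wu hc3 e3 C hC
  have r2 := wu hc3 e3 D hD
  have r3 := sym hc1 hc3 e1 e3 A hA
  have r4 := wu hc1 e1 A hA
  have r5 := sym hc1 hc2 e1 e2 B hB
  rw [ev3c C hC C hC, ev3c C hC c₃ hc3, ev3c C hC v hv, hCw, hCt] at r1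
  rw [ev3c D hD D hD, ev3c D hD c₃ hc3, ev3c D hD v hv, hDw, hDt] at r2
  rw [ev1c A hA c₃ hc3, ev3c A hA c₁ hc1, hAx, hAt, hAw] at r3
  rw [ev1c A hA A hA, ev1c A hA c₁ hc1, ev1c A hA v hv, hAx, hAt] at r4
  rw [ev1c B hB c₂ hc2, ev2c B hB c₁ hc1, hBx, hBy, hBt] at r5
  revert r1 r2 r3 r4 r5
  generalize c₃ (pathSx t) = p
  generalize c₃ (pathSx w) = q
  generalize v (pathSx t) = r
  generalize v (pathSx w) = s
  generalize c₁ (pathSx t) = m
  generalize c₁ (pathSx w) = n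
  generalize c₃ (pathSx x) = k
  generalize c₁ (pathSx x) = l
  generalize v (pathSx x) = o
  generalize c₂ (pathSx t) = z
  generalize c₂ (pathSx x) = z2
  generalize c₁ (pathSx y) = z3
  intro r1 r2 r3 r4 r5
  simp only [one_mul, zero_mul, mul_zero, mul_one, add_zero, zero_add] at r1 r2 r3 r4 r5
  subst r3
  rw [← r5, zero_add] at r4
  subst r4
  revert r1 r2 q s
  decide

end Pool.Agent.H349.TM
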