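import Mathlib
import Pool.Graph.R_seed8.H815.HF.InvDom

/-! The double of a compact topological 3-manifold with boundary. -/

set_option autoImplicit false

namespace Pool.Agent.H349.TM

open Set Topology

abbrev E3 := EuclideanSpace ℝ (Fin 3)
abbrev H3 := EuclideanHalfSpace 3

instance : SecondCountableTopology H3 :=
  inferInstanceAs (SecondCountableTopology {x : E3 // 0 ≤ x 0})

section bdry
variable {M : Type} [TopologicalSpace M]

/-- invariance of the boundary -/
theorem bdry_inv (φ ψ : OpenPartialHomeomorph M H3) (p : M) (hφ : p ∈ φ.source) (hψ : p ∈ ψ.source)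
    (h : (φ p).1 0 = 0) : (ψ p).1 0 = 0 := by
  by_contra hne
  have hpos : 0 < (ψ p).1 0 := lt_of_le_of_ne (ψ p).2 (Ne.symm hne)
  -- the map from a ball around `ψ p` to `E3`
  classical
  let toH : E3 → H3 := fun y => if h : 0 ≤ y 0 then ⟨y, h⟩ else ψ p
  have htoH : ∀ y : E3, ∀ hy : 0 ≤ y 0, toH y = ⟨y, hy⟩ := fun y hy => dif_pos hy
  let f : E3 → E3 := fun y => (φ (ψ.symm (toH y))).1
  -- a ball on which everything is defined
  have hopen : IsOpen {y : E3 | 0 < y 0} := isOpen_lt continuous_const (EuclideanSpace.proj (0 : Fin 3)).continuous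
  obtain ⟨O, hO, hOe⟩ : ∃ O : Set E3, IsOpen O ∧ Subtype.val ⁻¹' O = (ψ.symm.trans φ).source ∩ Set.univ := by
    rw [Set.inter_univ]
    obtain ⟨O, hO, h⟩ := isOpen_induced_iff.1 (ψ.symm.trans φ).open_source
    exact ⟨O, hO, h⟩
  rw [Set.inter_univ] at hOe
  have hmem : (ψ p).1 ∈ O ∩ {y : E3 | 0 < y 0} := by
    refine ⟨?_, hpos⟩
    have : ψ p ∈ Subtype.val ⁻¹' O := by
      rw [hOe, OpenPartialHomeomorph.trans_source]
      refine ⟨?_, ?_⟩
      · exact ψ.map_source hψ
      · show ψ.symm (ψ p) ∈ φ.source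
        rw [ψ.left_inv hψ]; exact hφ
    exact this
  obtain ⟨r, hr, hball⟩ := Metric.isOpen_iff.1 (hO.inter hopen) _ hmem
  have hcb : Metric.closedBall (ψ p).1 (r / 2) ⊆ O ∩ {y : E3 | 0 < y 0} :=
    (Metric.closedBall_subset_ball (by linarith)).trans hball
  have hsrc : ∀ y ∈ Metric.closedBall (ψ p).1 (r / 2), ∀ hy : 0 ≤ y 0,
      (⟨y, hy⟩ : H3) ∈ (ψ.symm.trans φ).source := by
    intro y hy h0
    have : (⟨y, h0⟩ : H3) ∈ Subtype.val ⁻¹' O := (hcb hy).1
    rwa [hOe] at this
  have hnn : ∀ y ∈ Metric.closedBall (ψ p).1 (r / 2), 0 ≤ y 0 := fun y hy => (le_of_lt (hcb hy).2)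
  have hcont : ContinuousOn f (Metric.closedBall (ψ p).1 (r / 2)) := by
    have h1 : ContinuousOn toH (Metric.closedBall (ψ p).1 (r / 2)) := by
      rw [continuousOn_iff_continuous_domRestrict]
      have : (Metric.closedBall (ψ p).1 (r / 2)).domRestrict toH =
          fun y : Metric.closedBall (ψ p).1 (r / 2) => (⟨y.1, hnn y.1 y.2⟩ : H3) := by
        funext y
        exact htoH _ _
      rw [this]
      exact Continuous.subtype_mk continuous_subtype_val _
    have h2 : ContinuousOn (ψ.symm.trans φ) (ψ.symm.trans φ).source := (ψ.symm.trans φ).continuousOn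
    have h3 : ContinuousOn (fun y => (ψ.symm.trans φ) (toH y)) (Metric.closedBall (ψ p).1 (r / 2)) := by
      apply h2.comp h1
      intro y hy
      rw [htoH y (hnn y hy)]
      exact hsrc y hy _
    exact continuous_subtype_val.comp_continuousOn h3
  have hinj : InjOn f (Metric.closedBall (ψ p).1 (r / 2)) := by
    intro y hy z hz hyz
    have h1 : (ψ.symm.trans φ) (toH y) = (ψ.symm.trans φ) (toH z) := Subtype.ext hyz
    have h2 : toH y = toH z := (ψ.symm.trans φ).injOn (by
      show toH y ∈ (ψ.symm.trans φ).source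
      rw [htoH y (hnn y hy)]; exact hsrc y hy _) (by
      show toH z ∈ (ψ.symm.trans φ).source
      rw [htoH z (hnn z hz)]; exact hsrc z hz _) h1
    rw [htoH y (hnn y hy), htoH z (hnn z hz)] at h2
    exact congrArg Subtype.val h2
  have himg := Pool.Agent.H815.HF.InvDom.image_mem_nhds f (ψ p).1 (r / 2) (by linarith) hcont hinj
  have hf : f (ψ p).1 = (φ p).1 := by
    show (φ (ψ.symm (toH (ψ p).1))).1 = _
    rw [htoH _ (ψ p).2]
    show (φ (ψ.symm (ψ p))).1 = _
    rw [ψ.left_inv hψ]
  rw [hf] at himg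
  -- but the image is in the half space
  have hsub : f '' Metric.closedBall (ψ p).1 (r / 2) ⊆ {y : E3 | 0 ≤ y 0} := by
    rintro _ ⟨y, _, rfl⟩
    exact (φ (ψ.symm (toH y))).2
  have hnh : {y : E3 | 0 ≤ y 0} ∈ 𝓝 (φ p).1 := Filter.mem_of_superset himg hsub
  obtain ⟨ε, hε, hb⟩ := Metric.mem_nhds_iff.1 hnh
  have h5 : (φ p).1 - (ε / 2) • EuclideanSpace.single (0 : Fin 3) (1 : ℝ) ∈ Metric.ball (φ p).1 ε := by
    rw [Metric.mem_ball, dist_eq_norm, sub_sub_cancel_left, norm_neg, norm_smul,
      EuclideanSpace.norm_single, norm_one, mul_one, Real.norm_eq_abs, abs_of_pos (by linarith)]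
    linarith
  have h6 := hb h5
  rw [Set.mem_setOf_eq, PiLp.sub_apply, PiLp.smul_apply, EuclideanSpace.single_apply, if_pos rfl, h] at h6
  simp only [smul_eq_mul, mul_one, zero_sub] at h6
  linarith

variable [ChartedSpace H3 M]

/-- the boundary -/
def bdry (M : Type) [TopologicalSpace M] [ChartedSpace H3 M] : Set M :=
  {p | (chartAt H3 p p).1 0 = 0}

theorem mem_bdry (φ : OpenPartialHomeomorph M H3) (p : M) (hφ : p ∈ φ.source) :
    p ∈ bdry M ↔ (φ p).1 0 = 0 :=
  ⟨fun h => bdry_inv _ _ p (mem_chart_source H3 p) hφ h,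
    fun h => bdry_inv _ _ p hφ (mem_chart_source H3 p) h⟩

theorem isClosed_bdry : IsClosed (bdry M) := by
  rw [← isOpen_compl_iff, isOpen_iff_mem_nhds]
  intro p hp
  let φ := chartAt H3 p
  have hpos : 0 < (φ p).1 0 := lt_of_le_of_ne (φ p).2 (Ne.symm hp)
  have hO : IsOpen {y : H3 | 0 < y.1 0} :=
    isOpen_lt continuous_const ((EuclideanSpace.proj (0 : Fin 3)).continuous.comp continuous_subtype_val)
  have h1 : φ.source ∩ φ ⁻¹' {y : H3 | 0 < y.1 0} ∈ 𝓝 p :=
    (φ.isOpen_inter_preimage hO).mem_nhds ⟨mem_chart_source H3 p, hpos⟩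
  refine Filter.mem_of_superset h1 ?_
  rintro q ⟨hq, hq'⟩ hqb
  rw [mem_bdry φ q hq] at hqb
  exact (ne_of_gt hq') hqb

theorem exists_delta (M : Type) [TopologicalSpace M] [ChartedSpace H3 M] [CompactSpace M] [T2Space M] : ∃ δ : M → ℝ, Continuous δ ∧ (∀ p, 0 ≤ δ p) ∧
    ∀ p, δ p = 0 ↔ p ∈ bdry M := by
  rcases Set.eq_empty_or_nonempty (bdry M) with he | hne
  · refine ⟨fun _ => 1, continuous_const, fun _ => zero_le_one, fun p => ?_⟩
    rw [he]
    simp
  · have : SecondCountableTopology M :=
      ChartedSpace.secondCountable_of_sigmaCompact H3 M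
    have : TopologicalSpace.MetrizableSpace M := TopologicalSpace.metrizableSpace_of_t3_secondCountable M
    letI := TopologicalSpace.metrizableSpaceMetric M
    refine ⟨fun p => Metric.infDist p (bdry M), Metric.continuous_infDist_pt _,
      fun p => Metric.infDist_nonneg, fun p => ?_⟩
    exact ((isClosed_bdry (M := M)).mem_iff_infDist_zero hne).symm

end bdry

section double
variable (M : Type) [TopologicalSpace M] [ChartedSpace H3 M] [CompactSpace M] [T2Space M]

/-- the distance to the boundary -/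
noncomputable def dlt : M → ℝ := (exists_delta M).choose

theorem dlt_cont : Continuous (dlt M) := (exists_delta M).choose_spec.1
theorem dlt_nonneg (p : M) : 0 ≤ dlt M p := (exists_delta M).choose_spec.2.1 p
theorem dlt_zero (p : M) : dlt M p = 0 ↔ p ∈ bdry M := (exists_delta M).choose_spec.2.2 p

/-- the double -/
def Dbl : Type := {p : M × ℝ // |p.2| = dlt M p.1}

instance : TopologicalSpace (Dbl M) := inferInstanceAs (TopologicalSpace {p : M × ℝ // |p.2| = dlt M p.1})
instance : T2Space (Dbl M) := inferInstanceAs (T2Space {p : M × ℝ // |p.2| = dlt M p.1})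

instance : CompactSpace (Dbl M) := by
  have h : IsCompact {p : M × ℝ | |p.2| = dlt M p.1} := by
    have h1 : IsCompact (range (fun p : M => ((p, dlt M p) : M × ℝ))) :=
      isCompact_range (continuous_id.prodMk (dlt_cont M))
    have h2 : IsCompact (range (fun p : M => ((p, - dlt M p) : M × ℝ))) :=
      isCompact_range (continuous_id.prodMk (dlt_cont M).neg)
    have h3 : {p : M × ℝ | |p.2| = dlt M p.1} = range (fun p : M => ((p, dlt M p) : M × ℝ)) ∪
        range (fun p : M => ((p, - dlt M p) : M × ℝ)) := by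
      ext ⟨p, s⟩
      constructor
      · intro hs
        have hs' : |s| = dlt M p := hs
        rcases abs_eq (dlt_nonneg M p) |>.1 hs' with h | h
        · exact Or.inl ⟨p, by rw [h]⟩
        · exact Or.inr ⟨p, by rw [h]⟩
      · rintro (⟨q, hq⟩ | ⟨q, hq⟩)
        · rw [Prod.mk.injEq] at hq
          obtain ⟨rfl, rfl⟩ := hq
          exact abs_of_nonneg (dlt_nonneg M q)
        · rw [Prod.mk.injEq] at hq
          obtain ⟨rfl, rfl⟩ := hq
          show |-dlt M q| = _
          rw [abs_neg]
          exact abs_of_nonneg (dlt_nonneg M q)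
    rw [h3]
    exact h1.union h2
  exact isCompact_iff_compactSpace.1 h

/-- the inclusion -/
noncomputable def incl : C(M, Dbl M) :=
  ⟨fun p => ⟨(p, dlt M p), abs_of_nonneg (dlt_nonneg M p)⟩,
    (continuous_id.prodMk (dlt_cont M)).subtype_mk _⟩

/-- the folding map -/
def fold : C(Dbl M, M) := ⟨fun d => d.1.1, continuous_fst.comp continuous_subtype_val⟩

theorem fold_incl (p : M) : fold M (incl M p) = p := rfl

variable {M}

/-- reflection in the first coordinate -/
noncomputable def flip (v : E3) : E3 := v - (2 * v 0) • EuclideanSpace.single (0 : Fin 3) (1 : ℝ)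

theorem flip_zero (v : E3) : flip v 0 = - v 0 := by
  unfold flip
  rw [PiLp.sub_apply, PiLp.smul_apply, EuclideanSpace.single_apply, if_pos rfl, smul_eq_mul]
  ring

theorem flip_ne (v : E3) (i : Fin 3) (hi : i ≠ 0) : flip v i = v i := by
  unfold flip
  rw [PiLp.sub_apply, PiLp.smul_apply, EuclideanSpace.single_apply, if_neg hi, smul_eq_mul]
  ring

theorem flip_cont : Continuous flip := by
  unfold flip
  have : Continuous fun v : E3 => v 0 := (EuclideanSpace.proj (0 : Fin 3)).continuous
  fun_prop

theorem flip_eq (v : E3) (h : v 0 = 0) : flip v = v := by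
  ext i
  by_cases hi : i = 0
  · subst hi; rw [flip_zero, h, neg_zero]
  · exact flip_ne v i hi

theorem flip_flip (v : E3) : flip (flip v) = v := by
  ext i
  by_cases hi : i = 0
  · subst hi; rw [flip_zero, flip_zero, neg_neg]
  · rw [flip_ne _ i hi, flip_ne _ i hi]

/-- the point of the half space under `y` -/
noncomputable def absv (y : E3) : H3 :=
  ⟨if 0 ≤ y 0 then y else flip y, by
    split_ifs with h
    · exact h
    · rw [flip_zero]; linarith [not_le.1 h]⟩

theorem absv_pos (y : E3) (h : 0 ≤ y 0) : (absv y).1 = y := if_pos h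
theorem absv_neg (y : E3) (h : ¬ 0 ≤ y 0) : (absv y).1 = flip y := if_neg h

theorem cont_zero : Continuous fun v : E3 => v 0 := (EuclideanSpace.proj (0 : Fin 3)).continuous

theorem absv_cont : Continuous absv := by
  refine Continuous.subtype_mk ?_ _
  refine Continuous.if ?_ continuous_id flip_cont
  intro y hy
  have h1 := frontier_le_subset_eq continuous_const cont_zero hy
  have h2 : (0 : ℝ) = y 0 := h1
  exact (flip_eq y h2.symm).symm

theorem absv_of_H (v : H3) : absv v.1 = v := Subtype.ext (absv_pos v.1 v.2)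

theorem absv_flip (v : H3) : absv (flip v.1) = v := by
  apply Subtype.ext
  by_cases h : 0 ≤ (flip v.1) 0
  · rw [absv_pos _ h]
    rw [flip_zero] at h
    have : v.1 0 = 0 := le_antisymm (by linarith) v.2
    exact flip_eq _ this
  · rw [absv_neg _ h, flip_flip]

/-- a chart of the double -/
noncomputable def dchart (φ : OpenPartialHomeomorph M H3) : OpenPartialHomeomorph (Dbl M) E3 where
  toFun d := if 0 ≤ d.1.2 then (φ d.1.1).1 else flip (φ d.1.1).1
  invFun y := ⟨(φ.symm (absv y), if 0 ≤ y 0 then dlt M (φ.symm (absv y)) else - dlt M (φ.symm (absv y))), by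
    show |if 0 ≤ y 0 then dlt M (φ.symm (absv y)) else - dlt M (φ.symm (absv y))| = _
    split_ifs
    · exact abs_of_nonneg (dlt_nonneg M _)
    · rw [abs_neg]; exact abs_of_nonneg (dlt_nonneg M _)⟩
  source := {d | d.1.1 ∈ φ.source}
  target := {y | absv y ∈ φ.target}
  map_source' := by
    intro d hd
    have hd' : d.1.1 ∈ φ.source := hd
    show absv (if 0 ≤ d.1.2 then (φ d.1.1).1 else flip (φ d.1.1).1) ∈ φ.target
    split_ifs
    · rw [absv_of_H]; exact φ.map_source hd'
    · rw [absv_flip]; exact φ.map_source hd'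
  map_target' := by
    intro y hy
    exact φ.map_target hy
  left_inv' := by
    intro d hd
    have hd' : d.1.1 ∈ φ.source := hd
    have habs : |d.1.2| = dlt M d.1.1 := d.2
    by_cases h : 0 ≤ d.1.2
    · simp only [if_pos h]
      apply Subtype.ext
      apply Prod.ext
      · show φ.symm (absv (φ d.1.1).1) = _
        rw [absv_of_H, φ.left_inv hd']
      · show (if 0 ≤ (φ d.1.1).1 0 then dlt M (φ.symm (absv (φ d.1.1).1)) else _) = d.1.2
        rw [if_pos (φ d.1.1).2, absv_of_H, φ.left_inv hd', ← habs, abs_of_nonneg h]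
    · simp only [if_neg h]
      have hne : dlt M d.1.1 ≠ 0 := by
        rw [← habs, abs_ne_zero]
        intro h0; exact h h0.ge
      have hb : d.1.1 ∉ bdry M := fun hb => hne ((dlt_zero M _).2 hb)
      rw [mem_bdry φ _ hd'] at hb
      have hpos : 0 < (φ d.1.1).1 0 := lt_of_le_of_ne (φ d.1.1).2 (Ne.symm hb)
      have hn : ¬ 0 ≤ flip (φ d.1.1).1 0 := by rw [flip_zero]; linarith
      apply Subtype.ext
      apply Prod.ext
      · show φ.symm (absv (flip (φ d.1.1).1)) = _
        rw [absv_flip, φ.left_inv hd']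
      · show (if 0 ≤ flip (φ d.1.1).1 0 then _ else - dlt M (φ.symm (absv (flip (φ d.1.1).1)))) = d.1.2
        rw [if_neg hn, absv_flip, φ.left_inv hd', ← habs, abs_of_neg (not_le.1 h), neg_neg]
  right_inv' := by
    intro y hy
    have hy' : absv y ∈ φ.target := hy
    have hr : φ (φ.symm (absv y)) = absv y := φ.right_inv hy'
    by_cases h : 0 ≤ y 0
    · show (if 0 ≤ (if 0 ≤ y 0 then dlt M (φ.symm (absv y)) else - dlt M (φ.symm (absv y))) then
        (φ (φ.symm (absv y))).1 else flip (φ (φ.symm (absv y))).1) = y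
      rw [if_pos h, if_pos (dlt_nonneg M _), hr, absv_pos y h]
    · show (if 0 ≤ (if 0 ≤ y 0 then dlt M (φ.symm (absv y)) else - dlt M (φ.symm (absv y))) then
        (φ (φ.symm (absv y))).1 else flip (φ (φ.symm (absv y))).1) = y
      have hb : φ.symm (absv y) ∉ bdry M := by
        rw [mem_bdry φ _ (φ.map_target hy'), hr, absv_neg y h, flip_zero]
        intro h0
        exact h (by linarith)
      have hne : dlt M (φ.symm (absv y)) ≠ 0 := fun h0 => hb ((dlt_zero M _).1 h0)
      have hpos : 0 < dlt M (φ.symm (absv y)) := lt_of_le_of_ne (dlt_nonneg M _) (Ne.symm hne)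
      rw [if_neg h, if_neg (by linarith), hr, absv_neg y h, flip_flip]
  open_source := φ.open_source.preimage (continuous_fst.comp continuous_subtype_val)
  open_target := φ.open_target.preimage absv_cont
  continuousOn_toFun := by
    have hf : ContinuousOn (fun d : Dbl M => (φ d.1.1).1) {d : Dbl M | d.1.1 ∈ φ.source} := by
      apply continuous_subtype_val.comp_continuousOn
      exact φ.continuousOn.comp (continuous_fst.comp continuous_subtype_val).continuousOn
        (fun d hd => hd)
    refine ContinuousOn.if ?_ (hf.mono Set.inter_subset_left)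
      ((flip_cont.comp_continuousOn hf).mono Set.inter_subset_left)
    rintro d ⟨hd, hfr⟩
    have hc : Continuous fun d : Dbl M => d.1.2 := continuous_snd.comp continuous_subtype_val
    have h1 := frontier_le_subset_eq continuous_const hc hfr
    have h2 : (0 : ℝ) = d.1.2 := h1
    have h3 : |d.1.2| = dlt M d.1.1 := d.2
    rw [← h2, abs_zero] at h3
    have h4 := (dlt_zero M _).1 h3.symm
    rw [mem_bdry φ _ hd] at h4
    exact (flip_eq _ h4).symm
  continuousOn_invFun := by
    have hf : ContinuousOn (fun y : E3 => φ.symm (absv y)) {y | absv y ∈ φ.target} :=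
      φ.continuousOn_symm.comp absv_cont.continuousOn (fun y hy => hy)
    have hg : ContinuousOn (fun y : E3 => dlt M (φ.symm (absv y))) {y | absv y ∈ φ.target} :=
      (dlt_cont M).comp_continuousOn hf
    have h2 : ContinuousOn (fun y : E3 => if 0 ≤ y 0 then dlt M (φ.symm (absv y)) else
        - dlt M (φ.symm (absv y))) {y | absv y ∈ φ.target} := by
      refine ContinuousOn.if ?_ (hg.mono Set.inter_subset_left) (hg.neg.mono Set.inter_subset_left)
      rintro y ⟨hy, hfr⟩
      have h1 := frontier_le_subset_eq continuous_const cont_zero hfr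
      have h2 : (0 : ℝ) = y 0 := h1
      have h3 : φ.symm (absv y) ∈ bdry M := by
        rw [mem_bdry φ _ (φ.map_target hy), φ.right_inv hy, absv_pos y h2.le]
        exact h2.symm
      rw [(dlt_zero M _).2 h3, neg_zero]
    have h3 := hf.prodMk h2
    intro y hy
    have h4 := h3 y hy
    exact (Topology.IsInducing.subtypeVal (t := {p : M × ℝ | |p.2| = dlt M p.1})).continuousWithinAt_iff.2 h4

noncomputable instance : ChartedSpace E3 (Dbl M) where
  atlas := {e | ∃ φ : OpenPartialHomeomorph M H3, e = dchart φ}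
  chartAt d := dchart (chartAt H3 d.1.1)
  mem_chart_source d := mem_chart_source H3 d.1.1
  chart_mem_atlas d := ⟨_, rfl⟩

end double

end Pool.Agent.H349.TM
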