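import Pool.Agent.H349.TM.Mfd
import Pool.Graph.R_seed8.Results.MP_a8e993_al.FiniteOrderMonodromy

/-! The group `F₃ ⋊ ℤ` with monodromy of order two. -/

set_option autoImplicit false

namespace Pool.Agent.H349.TM

abbrev F3 := FreeGroup (Fin 3)
abbrev Zm := Multiplicative ℤ

/-- the monodromy -/
def mon : F3 →* F3 := FreeGroup.lift (fun i => if i = 2 then (FreeGroup.of i)⁻¹ else FreeGroup.of i)

theorem mon_of (i : Fin 3) : mon (FreeGroup.of i) =
    if i = 2 then (FreeGroup.of i)⁻¹ else FreeGroup.of i := FreeGroup.lift_apply_of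

theorem mon_mon : mon.comp mon = MonoidHom.id F3 := by
  apply FreeGroup.ext_hom
  intro i
  rw [MonoidHom.comp_apply, mon_of, MonoidHom.id_apply]
  by_cases h : i = 2
  · rw [if_pos h, map_inv, mon_of, if_pos h, inv_inv]
  · rw [if_neg h, mon_of, if_neg h]

/-- the monodromy as an automorphism -/
def monE : MulAut F3 := mon.toMulEquiv mon mon_mon mon_mon

theorem monE_apply (u : F3) : monE u = mon u := rfl

theorem monE_sq : monE * monE = 1 := by
  apply MulEquiv.ext
  intro u
  exact DFunLike.congr_fun mon_mon u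

/-- the action -/
def act : Zm →* MulAut F3 := zpowersHom _ monE

theorem act_one : act (Multiplicative.ofAdd 1) = monE := by
  change monE ^ ((1 : ℤ)) = monE
  exact zpow_one _

/-- the group -/
abbrev Gp : Type := F3 ⋊[act] Zm

/-- the free kernel -/
abbrev Nn : Subgroup Gp := (SemidirectProduct.rightHom (φ := act)).ker

theorem Nn_free : Nonempty (↥Nn ≃* FreeGroup (Fin 3)) := by
  have h : (SemidirectProduct.inl (φ := act)).range = Nn := SemidirectProduct.range_inl_eq_ker_rightHom
  exact ⟨(MulEquiv.subgroupCongr h.symm).trans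
    (MonoidHom.ofInjective (SemidirectProduct.inl_injective (φ := act))).symm⟩

/-- the quotient -/
noncomputable def Nq : Gp ⧸ Nn ≃* Multiplicative ℤ :=
  QuotientGroup.quotientKerEquivOfSurjective _ (SemidirectProduct.rightHom_surjective (φ := act))

def tt : Gp := SemidirectProduct.inr (Multiplicative.ofAdd 1)

theorem Nq_t : Nq (tt : Gp ⧸ Nn) = Multiplicative.ofAdd 1 := rfl

theorem tt_conj (u : F3) : tt * SemidirectProduct.inl u * tt⁻¹ = SemidirectProduct.inl (mon u) := by
  have h := SemidirectProduct.inl_aut (φ := act) (Multiplicative.ofAdd 1) u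
  rw [act_one] at h
  rw [← monE_apply, h]
  rfl

theorem tt_comm (u : F3) (hu : mon u = u) :
    (SemidirectProduct.inl u : Gp) * tt = tt * SemidirectProduct.inl u := by
  have h := tt_conj u
  rw [hu, mul_inv_eq_iff_eq_mul] at h
  exact h.symm

theorem tt_conj2 (x : Gp) (hx : x ∈ Nn) : tt ^ 2 * x * (tt ^ 2)⁻¹ = 1 * x * 1⁻¹ := by
  have hx' : x ∈ (SemidirectProduct.inl (φ := act)).range := by
    rw [SemidirectProduct.range_inl_eq_ker_rightHom]
    exact hx
  obtain ⟨u, rfl⟩ := hx'
  have h1 : tt ^ 2 * SemidirectProduct.inl u * (tt ^ 2)⁻¹ =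
      tt * (tt * SemidirectProduct.inl u * tt⁻¹) * tt⁻¹ := by
    rw [pow_two]
    group
  rw [h1, tt_conj, tt_conj, one_mul, inv_one, mul_one]
  congr 1
  exact DFunLike.congr_fun mon_mon u

/-- no 3-torsion -/
theorem no_three (H : Subgroup Gp) : ¬ ∃ (B : Type) (_ : AddCommGroup B),
    Nonempty (Additive (Abelianization ↥H) ≃+ ZMod 3 × B) :=
  Pool.Agent.Results.MP_a8e993_al.FiniteOrderMonodromy.result.1 Gp Nn 3 Nn_free Nq tt Nq_t 2
    (by norm_num) 1 (one_mem _) tt_conj2 H 3 Nat.prime_three (by norm_num)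

/-- exponent sums mod 2 -/
def ex (i : Fin 3) : F3 →* Multiplicative (ZMod 2) :=
  FreeGroup.lift (fun j => Multiplicative.ofAdd (if j = i then 1 else 0))

theorem ex_of (i j : Fin 3) : ex i (FreeGroup.of j) = Multiplicative.ofAdd (if j = i then 1 else 0) :=
  FreeGroup.lift_apply_of

theorem ex_mon (i : Fin 3) : (ex i).comp mon = ex i := by
  apply FreeGroup.ext_hom
  intro j
  rw [MonoidHom.comp_apply, mon_of]
  by_cases h : j = 2
  · rw [if_pos h, map_inv, ex_of]
    have : ∀ a : Multiplicative (ZMod 2), a⁻¹ = a := by decide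
    exact this _
  · rw [if_neg h]

theorem ex_act (i : Fin 3) (z : Zm) (u : F3) : ex i (act z u) = ex i u := by
  let S : Subgroup (MulAut F3) :=
    { carrier := {ψ | ∀ u, ex i (ψ u) = ex i u}
      one_mem' := fun u => rfl
      mul_mem' := by
        intro a b ha hb u
        change ex i (a (b u)) = ex i u
        rw [ha, hb]
      inv_mem' := by
        intro a ha u
        have := ha (a⁻¹ u)
        rw [← this]
        congr 1
        exact MulAut.apply_inv_self F3 a u }
  have h : monE ∈ S := fun u => DFunLike.congr_fun (ex_mon i) u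
  exact S.zpow_mem h (Multiplicative.toAdd z) u

/-- the dual classes -/
def dual (i : Fin 3) (g : Gp) : ZMod 2 := Multiplicative.toAdd (ex i g.left)

theorem dual_mul (i : Fin 3) (g g' : Gp) : dual i (g * g') = dual i g + dual i g' := by
  unfold dual
  rw [SemidirectProduct.mul_left, map_mul, ex_act, toAdd_mul]

/-- the fourth dual class -/
def dualt (g : Gp) : ZMod 2 := ((Multiplicative.toAdd g.right : ℤ) : ZMod 2)

theorem dualt_mul (g g' : Gp) : dualt (g * g') = dualt g + dualt g' := by
  unfold dualt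
  rw [SemidirectProduct.mul_right, toAdd_mul, Int.cast_add]

theorem dual_inl (i j : Fin 3) : dual i (SemidirectProduct.inl (FreeGroup.of j)) = if j = i then 1 else 0 := by
  unfold dual
  rw [SemidirectProduct.left_inl, ex_of, toAdd_ofAdd]

theorem dual_tt (i : Fin 3) : dual i tt = 0 := by
  unfold dual tt
  rw [SemidirectProduct.left_inr, map_one, toAdd_one]

theorem not_mfd : ¬ ∃ (M : Type) (_ : TopologicalSpace M) (_ : T2Space M) (_ : CompactSpace M)
    (_ : ChartedSpace (EuclideanHalfSpace 3) M) (x : M), Nonempty (FundamentalGroup M x ≃* Gp) := by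
  rintro ⟨M, _, _, _, _, m, ⟨e⟩⟩
  refine no_mfd M m Gp e (SemidirectProduct.inl (FreeGroup.of 0)) (SemidirectProduct.inl (FreeGroup.of 1))
    (SemidirectProduct.inl (FreeGroup.of 2)) tt ?_ ?_ ?_ (dual 0) (dual 1) (dual 2) dualt
    (dual_mul 0) (dual_mul 1) (dual_mul 2) dualt_mul ?_ ?_ ?_ ?_ ?_ ?_ ?_ ?_ ?_ ?_
  · apply tt_comm
    rw [mon_of, if_neg (by decide)]
  · apply tt_comm
    rw [mon_of, if_neg (by decide)]
  · have h := tt_conj (FreeGroup.of 2)
    rw [mon_of, if_pos rfl, mul_inv_eq_iff_eq_mul, map_inv] at h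
    rw [mul_assoc, h, ← mul_assoc, mul_inv_cancel, one_mul]
  · rw [dual_inl, if_pos rfl]
  · rw [dual_inl, if_neg (by decide)]
  · exact dual_tt 0
  · rw [dual_inl, if_neg (by decide)]
  · rw [dual_inl, if_pos rfl]
  · exact dual_tt 1
  · rw [dual_inl, if_pos rfl]
  · exact dual_tt 2
  · unfold dualt
    rw [SemidirectProduct.right_inl, toAdd_one, Int.cast_zero]
  · unfold dualt tt
    rw [SemidirectProduct.right_inr, toAdd_ofAdd, Int.cast_one]

end Pool.Agent.H349.TM
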