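import Pool.Agent.H349.TM.Closed
import Pool.Agent.H349.TM.Dbl

/-! The obstruction for compact topological 3-manifolds with boundary. -/

set_option autoImplicit false

namespace Pool.Agent.H349.TM

open Set Topology
open Pool.Agent.Helper922.HB.Sc (Sing sface altd vert)
open Pool.Agent.Helper158.PD

universe u v

section lab
variable {X : Type u} [TopologicalSpace X]

theorem lab_aux (x₀ : X) {G : Type v} [Group G]
    (e : FundamentalGroup X x₀ ≃* G) : ∃ L : ∀ x y : X, Path.Homotopic.Quotient x y → G,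
      (∀ (x y z : X) (p : Path.Homotopic.Quotient x y) (q : Path.Homotopic.Quotient y z),
        L x z (p.trans q) = L x y p * L y z q) ∧
      (∀ g : G, ∃ p : Path.Homotopic.Quotient x₀ x₀, L x₀ x₀ p = g) ∧
      ∀ p q : Path.Homotopic.Quotient x₀ x₀, L x₀ x₀ p = L x₀ x₀ q → p = q := by
  classical
  let P0 : ∀ x : X, Joined x₀ x → Path.Homotopic.Quotient x₀ x := fun x h =>
    Path.Homotopic.Quotient.mk h.somePath
  let P : ∀ x : X, Joined x₀ x → Path.Homotopic.Quotient x₀ x := fun x h =>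
    (P0 x₀ (Joined.refl x₀)).symm.trans (P0 x h)
  have hP : ∀ h, P x₀ h = Path.Homotopic.Quotient.refl x₀ := fun h => Path.Homotopic.Quotient.symm_trans _
  let l : ∀ x y : X, Joined x₀ x → Joined x₀ y → Path.Homotopic.Quotient x y → FundamentalGroup X x₀ :=
    fun x y hx hy p => (P x hx).trans (p.trans (P y hy).symm)
  have hl : ∀ hx hy, ∀ p : Path.Homotopic.Quotient x₀ x₀, l x₀ x₀ hx hy p = p := by
    intro hx hy p
    show (P x₀ hx).trans (p.trans (P x₀ hy).symm) = p
    have h1 : (Path.Homotopic.Quotient.refl x₀).symm = Path.Homotopic.Quotient.refl x₀ := by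
      show Path.Homotopic.Quotient.symm (Path.Homotopic.Quotient.mk (Path.refl x₀)) = _
      rw [← Path.Homotopic.Quotient.mk_symm, Path.refl_symm]
      rfl
    rw [hP, h1, Path.Homotopic.Quotient.trans_refl, Path.Homotopic.Quotient.refl_trans]
  have hm : ∀ (x y z : X) (hx : Joined x₀ x) (hy : Joined x₀ y) (hz : Joined x₀ z)
      (p : Path.Homotopic.Quotient x y) (q : Path.Homotopic.Quotient y z),
      l x z hx hz (p.trans q) = l y z hy hz q * l x y hx hy p := by
    intro x y z hx hy hz p q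
    show (P x hx).trans ((p.trans q).trans (P z hz).symm) =
      ((P x hx).trans (p.trans (P y hy).symm)).trans ((P y hy).trans (q.trans (P z hz).symm))
    rw [Path.Homotopic.Quotient.trans_assoc (P x hx), Path.Homotopic.Quotient.trans_assoc p q,
      Path.Homotopic.Quotient.trans_assoc p (P y hy).symm,
      ← Path.Homotopic.Quotient.trans_assoc (P y hy).symm (P y hy), Path.Homotopic.Quotient.symm_trans,
      Path.Homotopic.Quotient.refl_trans]
  have hj : ∀ {x y : X}, Path.Homotopic.Quotient x y → (Joined x₀ x ↔ Joined x₀ y) := by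
    intro x y p
    obtain ⟨γ, rfl⟩ := Path.Homotopic.Quotient.mk_surjective p
    exact ⟨fun h => h.trans ⟨γ⟩, fun h => h.trans ⟨γ.symm⟩⟩
  refine ⟨fun x y p => if h : Joined x₀ x then e (l x y h ((hj p).1 h) p)⁻¹ else 1, ?_, ?_, ?_⟩
  · intro x y z p q
    by_cases h : Joined x₀ x
    · have h' := (hj p).1 h
      simp only [dif_pos h, dif_pos h']
      rw [← map_mul, ← mul_inv_rev, hm x y z h h' ((hj q).1 h')]
    · have h' : ¬ Joined x₀ y := fun h' => h ((hj p).2 h')
      simp only [dif_neg h, dif_neg h']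
      rw [one_mul]
  · intro g
    refine ⟨((e.symm g)⁻¹ : FundamentalGroup X x₀), ?_⟩
    beta_reduce
    rw [dif_pos (Joined.refl x₀)]
    show e (l x₀ x₀ _ _ ((e.symm g)⁻¹ : FundamentalGroup X x₀))⁻¹ = g
    have := hl (Joined.refl x₀) (Joined.refl x₀) ((e.symm g)⁻¹ : FundamentalGroup X x₀)
    rw [this, inv_inv, e.apply_symm_apply]
  · intro p q h
    beta_reduce at h
    rw [dif_pos (Joined.refl x₀), dif_pos (Joined.refl x₀)] at h
    have h1 : (l x₀ x₀ (Joined.refl x₀) (Joined.refl x₀) p)⁻¹ =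
      (l x₀ x₀ (Joined.refl x₀) (Joined.refl x₀) q)⁻¹ := e.injective h
    have h2 := inv_injective h1
    rw [hl, hl] at h2
    exact h2

/-- labelling of the 1-simplices by elements of the fundamental group (the space need not be
path connected) -/
theorem exists_lab (x₀ : X) {G : Type v} [Group G]
    (e : FundamentalGroup X x₀ ≃* G) : ∃ c : Sing X 1 → G,
      (∀ τ : Sing X 2, c (sface 1 1 τ) = c (sface 1 2 τ) * c (sface 1 0 τ)) ∧
      (∀ g : G, ∃ γ : Path x₀ x₀, c (pathSx γ) = g) ∧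
      ∀ γ γ' : Path x₀ x₀, c (pathSx γ) = c (pathSx γ') → γ.Homotopic γ' := by
  classical
  obtain ⟨L, hL, hs, hi⟩ := lab_aux x₀ e
  choose px py pg hp using fun σ : Sing X 1 => exists_path σ
  have key : ∀ (x y : X) (γ : Path x y) (x' y' : X) (γ' : Path x' y'), pathSx γ = pathSx γ' →
      L x y (Path.Homotopic.Quotient.mk γ) = L x' y' (Path.Homotopic.Quotient.mk γ') := by
    intro x y γ x' y' γ' h
    obtain ⟨h1, h2, h3⟩ := pathSx_inj h
    subst h1
    subst h2
    rw [eq_of_heq h3]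
  have hc : ∀ (x y : X) (γ : Path x y),
      L (px (pathSx γ)) (py (pathSx γ)) (Path.Homotopic.Quotient.mk (pg (pathSx γ))) =
        L x y (Path.Homotopic.Quotient.mk γ) := fun x y γ => key _ _ _ _ _ _ (hp (pathSx γ)).symm
  refine ⟨fun σ => L (px σ) (py σ) (Path.Homotopic.Quotient.mk (pg σ)), ?_, ?_, ?_⟩
  · intro τ
    obtain ⟨x, y, z, γ, η, θ, h2, h0, h1, hh⟩ := exists_faces τ
    beta_reduce
    rw [h2, h0, h1, hc, hc, hc, ← hL, ← Path.Homotopic.Quotient.mk_trans]
    congr 1
    exact Path.Homotopic.Quotient.eq.2 hh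
  · intro g
    obtain ⟨p, hp'⟩ := hs g
    obtain ⟨γ, rfl⟩ := Path.Homotopic.Quotient.mk_surjective p
    exact ⟨γ, (hc _ _ γ).trans hp'⟩
  · intro γ γ' h
    beta_reduce at h
    rw [hc, hc] at h
    exact Path.Homotopic.Quotient.exact (hi _ _ h)

end lab

section pull
variable {X Y : Type} [TopologicalSpace X] [TopologicalSpace Y]

/-- the pull-back of a cocycle of degree one along a retraction -/
theorem exists_pull (i : C(X, Y)) (r : C(Y, X)) (hri : ∀ p, r (i p) = p) {a : Co X 1}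
    (ha : a ∈ Cy X 1) : ∃ b ∈ Cy Y 1, ∀ (x : X) (γ : Path x x),
      b (pathSx (γ.map i.continuous)) = a (pathSx γ) := by
  refine ⟨fun σ => a (r.comp σ), of_cy1 fun τ => cy1 ha (r.comp τ), fun x γ => ?_⟩
  change a _ = a _
  congr 1
  refine ContinuousMap.ext fun s => ?_
  change r ((γ.map i.continuous).extend (s.1 1)) = γ.extend (s.1 1)
  have hu : s.1 1 ∈ Icc (0 : ℝ) 1 := mem_Icc_of_mem_stdSimplex s.2 1
  rw [Path.extend_apply _ hu, Path.extend_apply _ hu]
  exact hri _

end pull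

/-- the obstruction -/
theorem no_mfd (M : Type) [TopologicalSpace M] [T2Space M] [CompactSpace M]
    [ChartedSpace (EuclideanHalfSpace 3) M] (m : M) (G : Type) [Group G]
    (e : FundamentalGroup M m ≃* G) (x y w t : G) (h1 : x * t = t * x) (h2 : y * t = t * y)
    (h3 : w * t * w = t) (A B C D : G → F2) (hA : ∀ g g', A (g * g') = A g + A g')
    (hB : ∀ g g', B (g * g') = B g + B g') (hC : ∀ g g', C (g * g') = C g + C g')
    (hD : ∀ g g', D (g * g') = D g + D g')
    (hAx : A x = 1) (hAw : A w = 0) (hAt : A t = 0) (hBx : B x = 0) (hBy : B y = 1) (hBt : B t = 0)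
    (hCw : C w = 1) (hCt : C t = 0) (hDw : D w = 0) (hDt : D t = 1) : False := by
  obtain ⟨c, c1, c2, c3'⟩ := exists_lab m e
  have htr : ∀ γ η : Path m m, c (pathSx (γ.trans η)) = c (pathSx γ) * c (pathSx η) := by
    intro γ η
    obtain ⟨τ, e1, e2, e3⟩ := exists_tri γ η
    have := c1 τ
    rwa [e1, e2, e3] at this
  obtain ⟨px, hx⟩ := c2 x
  obtain ⟨py, hy⟩ := c2 y
  obtain ⟨pw, hw⟩ := c2 w
  obtain ⟨pt, ht⟩ := c2 t
  have k1 : (px.trans pt).Homotopic (pt.trans px) := c3' _ _ (by rw [htr, htr, hx, ht, h1])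
  have k2 : (py.trans pt).Homotopic (pt.trans py) := c3' _ _ (by rw [htr, htr, hy, ht, h2])
  have k3 : ((pw.trans pt).trans pw).Homotopic pt := c3' _ _ (by rw [htr, htr, hw, ht, h3])
  have hcy : ∀ A : G → F2, (∀ g g', A (g * g') = A g + A g') → (fun σ => A (c σ)) ∈ Cy M 1 :=
    fun A hA => of_cy1 fun τ => by rw [c1, hA]
  obtain ⟨A', hA', eA⟩ := exists_pull (incl M) (fold M) (fold_incl M) (hcy A hA)
  obtain ⟨B', hB', eB⟩ := exists_pull (incl M) (fold M) (fold_incl M) (hcy B hB)
  obtain ⟨C', hC', eC⟩ := exists_pull (incl M) (fold M) (fold_incl M) (hcy C hC)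
  obtain ⟨D', hD', eD⟩ := exists_pull (incl M) (fold M) (fold_incl M) (hcy D hD)
  refine no_closed (Dbl M) (incl M m) (px.map (incl M).continuous) (py.map (incl M).continuous)
    (pw.map (incl M).continuous) (pt.map (incl M).continuous) ?_ ?_ ?_ A' B' C' D' hA' hB' hC' hD'
    ?_ ?_ ?_ ?_ ?_ ?_ ?_ ?_ ?_ ?_
  · have := k1.map (incl M)
    rwa [Path.map_trans, Path.map_trans] at this
  · have := k2.map (incl M)
    rwa [Path.map_trans, Path.map_trans] at this
  · have := k3.map (incl M)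
    rwa [Path.map_trans, Path.map_trans] at this
  · rw [eA, hx, hAx]
  · rw [eA, hw, hAw]
  · rw [eA, ht, hAt]
  · rw [eB, hx, hBx]
  · rw [eB, hy, hBy]
  · rw [eB, ht, hBt]
  · rw [eC, hw, hCw]
  · rw [eC, ht, hCt]
  · rw [eD, hw, hDw]
  · rw [eD, ht, hDt]

end Pool.Agent.H349.TM
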