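import Pool.Graph.R_seed8.Helper158.PD.Top

/-! Degree-two mod 2 classes on a closed topological 3-manifold: duality, the Bockstein and
symmetric triple products. -/

set_option autoImplicit false

namespace Pool.Agent.H349.TM

open Set Topology
open Pool.Agent.Helper922.HB.Sc (Sing sface altd vert)
open Pool.Agent.Helper158.PD

universe u

variable {X : Type u} [TopologicalSpace X]

/-- cup product in degrees one and one -/
noncomputable abbrev cc (a b : Co X 1) : Co X 2 := cup (show 1 + 1 = 2 from rfl) a b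
/-- cup product in degrees one and two -/
noncomputable abbrev c3 (a : Co X 1) (b : Co X 2) : Co X 3 := cup (show 1 + 2 = 3 from rfl) a b
/-- cup product in degrees two and one -/
noncomputable abbrev c3' (a : Co X 2) (b : Co X 1) : Co X 3 := cup (show 2 + 1 = 3 from rfl) a b

theorem c3_assoc (a b c : Co X 1) : c3 a (cc b c) = c3' (cc a b) c :=
  (cup_assoc (show 1 + 1 = 2 from rfl) (show 2 + 1 = 3 from rfl) (show 1 + 1 = 2 from rfl)
    (show 1 + 2 = 3 from rfl) a b c).symm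

theorem cy1 {a : Co X 1} (ha : a ∈ Cy X 1) (τ : Sing X 2) :
    a (sface 1 1 τ) = a (sface 1 2 τ) + a (sface 1 0 τ) := by
  have h0 : dl 1 a = 0 := LinearMap.mem_ker.1 ha
  have h : ∑ i : Fin 3, a (sface 1 i τ) = 0 := (dl_apply 1 a τ).symm.trans (congrFun h0 τ)
  rw [Fin.sum_univ_three] at h
  have key : ∀ p q r : F2, p + q + r = 0 → q = r + p := by decide
  exact key _ _ _ h

theorem of_cy1 {a : Co X 1} (h : ∀ τ : Sing X 2, a (sface 1 1 τ) = a (sface 1 2 τ) + a (sface 1 0 τ)) :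
    a ∈ Cy X 1 := by
  change dl 1 a = 0
  funext τ
  rw [dl_apply, Fin.sum_univ_three, h]
  change _ = (0 : F2)
  generalize a (sface 1 0 τ) = p
  generalize a (sface 1 2 τ) = q
  revert p q
  decide

theorem cc_apply (a b : Co X 1) (τ : Sing X 2) :
    cc a b τ = a (sface 1 2 τ) * b (sface 1 0 τ) := cup_one_one a b τ

theorem dl1_apply (b : Co X 1) (τ : Sing X 2) :
    dl 1 b τ = b (sface 1 0 τ) + b (sface 1 1 τ) + b (sface 1 2 τ) := by
  rw [dl_apply, Fin.sum_univ_three]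

/-- products of classes of degree one commute up to a coboundary -/
theorem cc_comm {a b : Co X 1} (ha : a ∈ Cy X 1) (hb : b ∈ Cy X 1) : cc a b + cc b a ∈ Bd X 2 := by
  change _ ∈ LinearMap.range (dl 1)
  refine ⟨fun σ => a σ * b σ, ?_⟩
  funext τ
  rw [dl_apply, Fin.sum_univ_three, Pi.add_apply, cc_apply, cc_apply, cy1 ha, cy1 hb]
  have h2 : ∀ m n p q : F2, n * q + (m + n) * (p + q) + m * p = m * q + p * n := by decide
  exact h2 _ _ _ _

/-- the triple product -/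
noncomputable def T3 (I : Co X 3 →ₗ[F2] F2) (a b c : Co X 1) : F2 := I (c3 a (cc b c))

variable {I : Co X 3 →ₗ[F2] F2}

theorem I_Bd (hI : ∀ c : Co X 2, I (dl 2 c) = 0) {c : Co X 3} (hc : c ∈ Bd X 3) : I c = 0 := by
  obtain ⟨b, rfl⟩ := hc
  exact hI b

theorem eq_of_add {a b : F2} (h : a + b = 0) : a = b := by
  revert a b; decide

theorem T3_swap23 (hI : ∀ c : Co X 2, I (dl 2 c) = 0) {a b c : Co X 1} (ha : a ∈ Cy X 1)
    (hb : b ∈ Cy X 1) (hc : c ∈ Cy X 1) : T3 I a b c = T3 I a c b := by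
  apply eq_of_add
  unfold T3
  rw [← map_add, ← map_add]
  exact I_Bd hI (cup_Bd_right _ ha (cc_comm hb hc))

theorem T3_swap12 (hI : ∀ c : Co X 2, I (dl 2 c) = 0) {a b c : Co X 1} (ha : a ∈ Cy X 1)
    (hb : b ∈ Cy X 1) (hc : c ∈ Cy X 1) : T3 I a b c = T3 I b a c := by
  apply eq_of_add
  unfold T3
  rw [c3_assoc, c3_assoc, ← map_add, ← LinearMap.add_apply, ← map_add]
  exact I_Bd hI (cup_Bd_left _ (cc_comm ha hb) hc)

theorem T3_swap13 (hI : ∀ c : Co X 2, I (dl 2 c) = 0) {a b c : Co X 1} (ha : a ∈ Cy X 1)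
    (hb : b ∈ Cy X 1) (hc : c ∈ Cy X 1) : T3 I a b c = T3 I c b a := by
  rw [T3_swap12 hI ha hb hc, T3_swap23 hI hb ha hc, T3_swap12 hI hb hc ha]

/-- the Bockstein square on cochains of degree two -/
noncomputable def sq (u : Co X 2) : Co X 3 := fun σ =>
  u (sface 2 0 σ) * u (sface 2 2 σ) + u (sface 2 1 σ) * u (sface 2 3 σ)

theorem cy2 {u : Co X 2} (hu : u ∈ Cy X 2) (σ : Sing X 3) :
    u (sface 2 0 σ) + u (sface 2 1 σ) + u (sface 2 2 σ) + u (sface 2 3 σ) = 0 := by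
  have h0 : dl 2 u = 0 := LinearMap.mem_ker.1 hu
  have h : ∑ i : Fin 4, u (sface 2 i σ) = 0 := (dl_apply 2 u σ).symm.trans (congrFun h0 σ)
  rwa [Fin.sum_univ_four] at h

theorem sq_add {u v : Co X 2} (hu : u ∈ Cy X 2) (hv : v ∈ Cy X 2) :
    sq (u + v) = sq u + sq v + dl 2 (fun σ => u σ * v σ) := by
  funext σ
  rw [Pi.add_apply, Pi.add_apply, dl_apply, Fin.sum_univ_four]
  unfold sq
  simp only [Pi.add_apply]
  have h1 := cy2 hu σ
  have h2 := cy2 hv σ
  revert h1 h2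
  generalize u (sface 2 0 σ) = u0
  generalize u (sface 2 1 σ) = u1
  generalize u (sface 2 2 σ) = u2
  generalize u (sface 2 3 σ) = u3
  generalize v (sface 2 0 σ) = v0
  generalize v (sface 2 1 σ) = v1
  generalize v (sface 2 2 σ) = v2
  generalize v (sface 2 3 σ) = v3
  revert u0 u1 u2 u3 v0 v1 v2 v3
  decide

theorem sf (i : Fin 3) (j : Fin 4) (σ : Sing X 3) :
    sface 1 i (sface 2 j σ) = sub (r := 3) (p := 1) (fun k => j.succAbove (i.succAbove k)) σ := by
  rw [sface_sub_lz, sface_sub_lz, sub_sub_lz]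
  rfl

theorem sf_eq (i i' : Fin 3) (j j' : Fin 4) (σ : Sing X 3)
    (h : ∀ k : Fin 2, j.succAbove (i.succAbove k) = j'.succAbove (i'.succAbove k)) :
    sface 1 i (sface 2 j σ) = sface 1 i' (sface 2 j' σ) := by
  rw [sf, sf]
  congr 1
  funext k
  exact h k

theorem sq_dl (b : Co X 1) : sq (dl 1 b) ∈ Bd X 3 := by
  change _ ∈ LinearMap.range (dl 2)
  refine ⟨fun τ => b (sface 1 2 τ) * b (sface 1 0 τ) + b (sface 1 1 τ) * b (sface 1 2 τ) +
    b (sface 1 1 τ) * b (sface 1 0 τ) + b (sface 1 1 τ), ?_⟩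
  funext σ
  unfold sq
  rw [dl_apply, Fin.sum_univ_four]
  simp only [dl1_apply]
  -- the six edges
  have e01a := sf_eq 2 2 2 3 σ (by decide)
  have e02a := sf_eq 2 1 1 3 σ (by decide)
  have e12a := sf_eq 2 0 0 3 σ (by decide)
  have e03a := sf_eq 1 1 1 2 σ (by decide)
  have e13a := sf_eq 1 0 0 2 σ (by decide)
  have e23a := sf_eq 0 0 0 1 σ (by decide)
  rw [e01a, e02a, e12a, e03a, e13a, e23a]
  generalize b (sface 1 2 (sface 2 3 σ)) = p
  generalize b (sface 1 1 (sface 2 3 σ)) = q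
  generalize b (sface 1 0 (sface 2 3 σ)) = r
  generalize b (sface 1 1 (sface 2 2 σ)) = s
  generalize b (sface 1 0 (sface 2 2 σ)) = t
  generalize b (sface 1 0 (sface 2 1 σ)) = v
  revert p q r s t v
  decide

/-- the Cartan formula -/
theorem c3_apply (a : Co X 1) (b : Co X 2) (σ : Sing X 3) :
    c3 a b σ = a (sface 1 2 (sface 2 3 σ)) * b (sface 2 0 σ) := by
  change cup _ a b σ = _
  rw [cup_apply, sf, sface_sub_lz]
  have f1 : front (show 1 + 2 = 3 from rfl) =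
      (fun k : Fin 2 => (3 : Fin 4).succAbove ((2 : Fin 3).succAbove k)) := by
    funext j
    fin_cases j <;> rfl
  have f2 : back (show 1 + 2 = 3 from rfl) = (0 : Fin 4).succAbove := by
    funext j
    fin_cases j <;> rfl
  rw [f1, f2]

theorem sq_cc {a b : Co X 1} (ha : a ∈ Cy X 1) (hb : b ∈ Cy X 1) :
    sq (cc a b) = c3 a (cc a b) + c3 a (cc b b) := by
  funext σ
  unfold sq
  rw [Pi.add_apply, c3_apply, c3_apply, cc_apply, cc_apply, cc_apply, cc_apply, cc_apply]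
  have e01a := sf_eq 2 2 2 3 σ (by decide)
  have e02a := sf_eq 2 1 1 3 σ (by decide)
  have e12a := sf_eq 2 0 0 3 σ (by decide)
  have e03a := sf_eq 1 1 1 2 σ (by decide)
  have e13a := sf_eq 1 0 0 2 σ (by decide)
  have e23a := sf_eq 0 0 0 1 σ (by decide)
  have h1 := cy1 ha (sface 2 3 σ)
  have h2 := cy1 hb (sface 2 0 σ)
  rw [e01a, e12a, e02a, ← e13a, ← e23a, h1, h2, e12a]
  generalize a (sface 1 2 (sface 2 3 σ)) = p
  generalize a (sface 1 0 (sface 2 3 σ)) = q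
  generalize b (sface 1 0 (sface 2 3 σ)) = r
  generalize b (sface 1 0 (sface 2 0 σ)) = s
  revert p q r s
  decide

/-- the Bockstein functional -/
noncomputable def SqL (I : Co X 3 →ₗ[F2] F2) (hI : ∀ c : Co X 2, I (dl 2 c) = 0) :
    Cy X 2 →ₗ[F2] F2 where
  toFun u := I (sq u.1)
  map_add' u v := by
    change I (sq (u.1 + v.1)) = _
    rw [sq_add u.2 v.2, map_add, map_add, hI, add_zero]
  map_smul' r u := by
    have hr : r = 0 ∨ r = 1 := by revert r; decide
    rcases hr with rfl | rfl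
    · rw [zero_smul, RingHom.id_apply, zero_smul]
      have : sq ((0 : Cy X 2) : Co X 2) = 0 := by
        funext σ
        change (0 : F2) * 0 + 0 * 0 = 0
        rfl
      rw [this, map_zero]
    · rw [one_smul, RingHom.id_apply, one_smul]

/-- every functional on cohomology of degree two is represented by a class of degree one -/
theorem exists_dual [CompactSpace X] [T2Space X]
    [ChartedSpace (EuclideanSpace ℝ (Fin 3)) X] :
    ∃ I : Co X 3 →ₗ[F2] F2, (∀ c : Co X 2, I (dl 2 c) = 0) ∧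
      ∀ φ : Co X 2 →ₗ[F2] F2, (∀ c : Co X 1, φ (dl 1 c) = 0) →
        ∃ C ∈ Cy X 1, ∀ u ∈ Cy X 2, φ u = I (c3 C u) := by
  haveI : SecondCountableTopology X :=
    ChartedSpace.secondCountable_of_sigmaCompact (EuclideanSpace ℝ (Fin 3)) X
  obtain ⟨I, hI, hR⟩ := exists_fund (X := X) 2
  refine ⟨I.1, hI, fun φ hφ => ?_⟩
  obtain ⟨a, ha, h⟩ := total_surj I hI hR (φ.comp (cp 2)) (fun c => by
    rw [LinearMap.comp_apply, cp_tdl_succ]
    exact hφ _)
  refine ⟨cp 1 a, pc_cp_cy ha, fun u hu => ?_⟩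
  have h1 := h (inc 2 u) (pc_inc_cy hu)
  rw [LinearMap.comp_apply, cp_inc] at h1
  rw [h1, pairing_apply, Fin.sum_univ_four]
  have e0 : I.1 (cup (show ((0 : Fin 4) : ℕ) + (3 - ((0 : Fin 4) : ℕ)) = 3 by omega)
      (cp ((0 : Fin 4) : ℕ) a) (cp (3 - ((0 : Fin 4) : ℕ)) (inc 2 u))) = 0 := by
    rw [show cp (3 - ((0 : Fin 4) : ℕ)) (inc 2 u) = 0 from cp_inc_ne (by decide) u, map_zero, map_zero]
  have e2 : I.1 (cup (show ((2 : Fin 4) : ℕ) + (3 - ((2 : Fin 4) : ℕ)) = 3 by decide)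
      (cp ((2 : Fin 4) : ℕ) a) (cp (3 - ((2 : Fin 4) : ℕ)) (inc 2 u))) = 0 := by
    rw [show cp (3 - ((2 : Fin 4) : ℕ)) (inc 2 u) = 0 from cp_inc_ne (by decide) u, map_zero, map_zero]
  have e3 : I.1 (cup (show ((3 : Fin 4) : ℕ) + (3 - ((3 : Fin 4) : ℕ)) = 3 by decide)
      (cp ((3 : Fin 4) : ℕ) a) (cp (3 - ((3 : Fin 4) : ℕ)) (inc 2 u))) = 0 := by
    rw [show cp (3 - ((3 : Fin 4) : ℕ)) (inc 2 u) = 0 from cp_inc_ne (by decide) u, map_zero, map_zero]
  have e1 : I.1 (cup (show ((1 : Fin 4) : ℕ) + (3 - ((1 : Fin 4) : ℕ)) = 3 by decide)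
      (cp ((1 : Fin 4) : ℕ) a) (cp (3 - ((1 : Fin 4) : ℕ)) (inc 2 u))) = I.1 (c3 (cp 1 a) u) := by
    have : cp (3 - ((1 : Fin 4) : ℕ)) (inc 2 u) = u := cp_inc 2 u
    rw [this]
    rfl
  refine (congrArg₂ (· + ·) (congrArg₂ (· + ·) (congrArg₂ (· + ·) e0 e1) e2) e3).trans ?_
  rw [zero_add, add_zero, add_zero]

end Pool.Agent.H349.TM
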